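import Pool.Agent.P.MP_e1a373_ag.B.Final

namespace Pool.Agent.Results.MP_e1a373_ag.BlocksNotFG

open Pool.Agent.P.MP_e1a373_ag Pool.Agent.P.MP_e1a373_ag.B

/-- The conformal block bundles of sl_2 have well defined degrees on the F-curves, and for at
least seven marked points the cone of these divisors is not generated in bounded level. -/
theorem result (n : ℕ) (hn : 7 ≤ n) : ∃ D : ℕ → (Fin n → ℕ) → FCurve n → ℕ,
    (∀ l lam F, (∀ i, lam i ≤ l) → ∀ d, IsDegree l lam F d ↔ d = D l lam F) ∧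
    ¬ ∃ l0 : ℕ, ∀ l : ℕ, 1 ≤ l → ∀ lam : Fin n → ℕ, (∀ i, lam i ≤ l) →
      (fun F => (D l lam F : ℝ)) ∈ convexHull ℝ {v : FCurve n → ℝ |
        ∃ (l' : ℕ) (mu : Fin n → ℕ) (m : ℝ), 1 ≤ l' ∧ l' ≤ l0 ∧ (∀ i, mu i ≤ l') ∧ 0 ≤ m ∧
          v = m • fun F => (D l' mu F : ℝ)} :=
  main n hn

end Pool.Agent.Results.MP_e1a373_ag.BlocksNotFG
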